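import Pool.Agent.Y775.W3.Stm

/-!
# Project W3, part HOM: Euclidean descent
-/

set_option autoImplicit false

namespace Pool.Agent.Y684.W3

open Y775.W3

/-- representatives of nonzero residues are in `S` -/
theorem rep_mem {R K : Type} [CommRing R] [IsDomain R] [Field K] (D : RD R K) (x : K)
    (hx : x ≠ 0) : D.rep x ∈ D.S := by
  have := D.s2 x 0 hx
  rwa [D.rep0, sub_zero] at this

/-- the double induction -/
theorem key {R K : Type} [CommRing R] [IsDomain R] [Field K] (D : RD R K) (φ : R → ℚ)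
    (hφ : ∀ b ∈ D.S, ∀ c ∈ D.S, D.Adm b c → φ (D.rep (D.ρ b * D.ρ c)) = φ b + φ c) :
    ∀ n : ℕ, ∀ c ∈ D.S, D.μ c = n → ∀ m : ℕ, ∀ x, x ≠ 0 → D.μ (D.rep x) = m →
      φ (D.rep (x * D.ρ c)) = φ (D.rep x) + φ c := by
  intro n
  induction n using Nat.strong_induction_on with
  | _ n ihn =>
    intro c hc hcn m
    induction m using Nat.strong_induction_on with
    | _ m ihm =>
      intro x hx hxm
      by_cases hA : D.Adm (D.rep x) c
      · have := hφ _ (rep_mem D x hx) c hc hA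
        rwa [D.hrep] at this
      · obtain ⟨y, hy, hyc, -, hlt⟩ := D.euclid x hx c hc hA
        have hc0 := D.hSρ c hc
        have hy0 := D.hSρ y hy
        have h1 := ihn _ (hcn ▸ hyc) y hy rfl _ x hx rfl
        have h2 := ihn _ (hcn ▸ hyc) y hy rfl _ (x * D.ρ c) (mul_ne_zero hx hc0) rfl
        have h3 := ihm _ (hxm ▸ hlt) (x * D.ρ y) (mul_ne_zero hx hy0) rfl
        rw [mul_right_comm] at h3
        linarith

/-- **HOM.** -/
theorem main : StmHOM := by
  intro R K _ _ _ D hK φ hφ c hc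
  have hmul : ∀ c ∈ D.S, ∀ x, x ≠ 0 → φ (D.rep (x * D.ρ c)) = φ (D.rep x) + φ c :=
    fun c hc x hx => key D φ hφ _ c hc rfl _ x hx rfl
  have h1S : (1 : R) ∈ D.S := by
    have := rep_mem D 1 one_ne_zero
    rwa [D.rep1] at this
  have h1 : φ 1 = 0 := by
    have := hφ 1 h1S 1 h1S D.adm1
    rw [map_one, mul_one, D.rep1] at this
    linarith
  have hc0 := D.hSρ c hc
  have hpow : ∀ i : ℕ, φ (D.rep ((D.ρ c) ^ i)) = i * φ c := by
    intro i
    induction i with
    | zero => simp [D.rep1, h1]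
    | succ i ih =>
      rw [pow_succ, hmul c hc _ (pow_ne_zero _ hc0), ih]
      push_cast
      ring
  obtain ⟨F, hF, hcF⟩ := hK (D.ρ c)
  have hu0 : (⟨D.ρ c, hcF⟩ : F) ≠ 0 := by
    intro h0
    exact hc0 (congrArg Subtype.val h0)
  set u : Fˣ := Units.mk0 ⟨D.ρ c, hcF⟩ hu0 with hu
  have hup : (D.ρ c) ^ (orderOf u) = 1 := by
    have h2 : u ^ (orderOf u) = 1 := pow_orderOf_eq_one u
    have h3 : (⟨D.ρ c, hcF⟩ : F) ^ (orderOf u) = 1 := by
      have h5 := congrArg (Units.val) h2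
      rw [Units.val_pow_eq_pow_val, Units.val_one, hu, Units.val_mk0] at h5
      exact h5
    have h4 := congrArg (Subtype.val) h3
    rw [SubmonoidClass.coe_pow] at h4
    exact h4
  have hpos : 0 < orderOf u := orderOf_pos u
  have h5 := hpow (orderOf u)
  rw [hup, D.rep1, h1] at h5
  have h6 : (orderOf u : ℚ) ≠ 0 := by exact_mod_cast hpos.ne'
  rcases mul_eq_zero.1 h5.symm with h7 | h7
  · exact absurd h7 h6
  · exact h7

end Pool.Agent.Y684.W3
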