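import Pool.Agent.Y775.W3.Stm

/-!
# Project W3, part KAP: symmetric forms vanish
-/

set_option autoImplicit false

namespace Pool.Agent.Y684.W3.Kap

open Y775.W3

/-- **KAP.** -/
theorem main (h : StmHOM) : StmKAP := by
  intro R K W _ _ _ _ D L hK hL κ hsym hκ
  have rep_mem : ∀ x : K, x ≠ 0 → D.rep x ∈ D.S := by
    intro x hx
    have := D.s2 x 0 hx
    rwa [D.rep0, sub_zero] at this
  have hSM : ∀ a ∈ D.S, a ∈ Submonoid.closure D.S := fun a ha => Submonoid.subset_closure ha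
  have hne : ∀ a ∈ D.S, a ≠ 0 := by
    intro a ha h0
    exact D.hSρ a ha (by rw [h0, map_zero])
  have hMρ : ∀ a ∈ Submonoid.closure D.S, D.ρ a ≠ 0 := by
    intro a ha
    induction ha using Submonoid.closure_induction with
    | mem x hx => exact D.hSρ x hx
    | one => rw [map_one]; exact one_ne_zero
    | mul x y _ _ hx hy => rw [map_mul]; exact mul_ne_zero hx hy
  -- squares
  have hsq : ∀ A ∈ Submonoid.closure D.S, ∀ B ∈ Submonoid.closure D.S, A ∈ D.Box → B ∈ D.Box →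
      D.ρ A = D.ρ B → κ (L A) (L A) - 2 * κ (L A) (L B) + κ (L B) (L B) = 0 := by
    intro A hA B hB hAb hBb hAB
    have h1 : κ (L A - L B) (L A - L B) = 0 := by
      rcases D.b2 A hAb B hBb hAB with h2 | ⟨y, hy, h2⟩
      · rw [h2, sub_self, map_zero]
      · exact hκ A hA B hB y hy h2
    simp only [map_sub, LinearMap.sub_apply] at h1
    rw [hsym (L B) (L A)] at h1
    linarith
  -- four elements
  have hfour : ∀ A ∈ Submonoid.closure D.S, ∀ B ∈ Submonoid.closure D.S,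
      ∀ A' ∈ Submonoid.closure D.S, ∀ B' ∈ Submonoid.closure D.S,
      A ∈ D.Box → B ∈ D.Box → A' ∈ D.Box → B' ∈ D.Box →
      D.ρ A = D.ρ A' → D.ρ B = D.ρ A' → D.ρ B' = D.ρ A' →
      κ (L A - L B) (L A' - L B') = 0 := by
    intro A hA B hB A' hA' B' hB' a b a' b' r1 r2 r3
    have h13 := hsq A hA A' hA' a a' r1
    have h14 := hsq A hA B' hB' a b' (r1.trans r3.symm)
    have h23 := hsq B hB A' hA' b a' r2
    have h24 := hsq B hB B' hB' b b' (r2.trans r3.symm)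
    simp only [map_sub, LinearMap.sub_apply]
    linarith
  -- step 1
  have hstep1 : ∀ A' ∈ Submonoid.closure D.S, ∀ B' ∈ Submonoid.closure D.S,
      A' ∈ D.Box → B' ∈ D.Box → D.ρ B' = D.ρ A' → ∀ u ∈ D.S,
      κ (L u) (L A' - L B') = 0 := by
    intro A' hA' B' hB' a' b' r3
    refine h R K D hK (fun b => κ (L b) (L A' - L B')) ?_
    intro b hb c hc hbc
    have ht := hMρ A' hA'
    have hb0 := D.hSρ b hb
    have hc0 := D.hSρ c hc
    have hbc0 : D.ρ b * D.ρ c ≠ 0 := mul_ne_zero hb0 hc0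
    set x : K := D.ρ A' / (D.ρ b * D.ρ c) with hx
    have hx0 : x ≠ 0 := div_ne_zero ht hbc0
    have hxe : D.ρ b * D.ρ c * x = D.ρ A' := by
      rw [hx]; field_simp
    obtain ⟨hb1, hb2⟩ := D.b1 b hb c hc hbc x hx0
    have hrx := rep_mem x hx0
    have hrr := rep_mem _ hbc0
    have h4 := hfour (b * c * D.rep x)
      (mul_mem (mul_mem (hSM b hb) (hSM c hc)) (hSM _ hrx))
      (D.rep (D.ρ b * D.ρ c) * D.rep x) (mul_mem (hSM _ hrr) (hSM _ hrx)) A' hA' B' hB'
      hb1 hb2 a' b' (by rw [map_mul, map_mul, D.hrep, hxe])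
      (by rw [map_mul, D.hrep, D.hrep, hxe]) r3
    rw [hL (b * c) (D.rep x) (mul_ne_zero (hne b hb) (hne c hc)) (hne _ hrx),
      hL b c (hne b hb) (hne c hc), hL _ (D.rep x) (hne _ hrr) (hne _ hrx)] at h4
    have h5 : L b + L c + L (D.rep x) - (L (D.rep (D.ρ b * D.ρ c)) + L (D.rep x)) =
        (L b + L c) - L (D.rep (D.ρ b * D.ρ c)) := by abel
    rw [h5] at h4
    simp only [map_sub, map_add, LinearMap.sub_apply, LinearMap.add_apply] at h4
    show κ (L (D.rep (D.ρ b * D.ρ c))) (L A' - L B') =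
      κ (L b) (L A' - L B') + κ (L c) (L A' - L B')
    simp only [map_sub]
    linarith
  -- step 2
  intro u hu v hv
  refine h R K D hK (fun w => κ (L u) (L w)) ?_ v hv
  intro b hb c hc hbc
  have hb0 := D.hSρ b hb
  have hc0 := D.hSρ c hc
  have hbc0 : D.ρ b * D.ρ c ≠ 0 := mul_ne_zero hb0 hc0
  obtain ⟨hb1, hb2⟩ := D.b1 b hb c hc hbc 1 one_ne_zero
  have hr1 := rep_mem 1 one_ne_zero
  have hrr := rep_mem _ hbc0
  have h4 := hstep1 (b * c * D.rep 1)
      (mul_mem (mul_mem (hSM b hb) (hSM c hc)) (hSM _ hr1))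
      (D.rep (D.ρ b * D.ρ c) * D.rep 1) (mul_mem (hSM _ hrr) (hSM _ hr1)) hb1 hb2
      (by rw [map_mul, map_mul, map_mul, D.hrep, D.hrep]) u hu
  rw [hL (b * c) (D.rep 1) (mul_ne_zero (hne b hb) (hne c hc)) (hne _ hr1),
      hL b c (hne b hb) (hne c hc), hL _ (D.rep 1) (hne _ hrr) (hne _ hr1)] at h4
  have h5 : L b + L c + L (D.rep 1) - (L (D.rep (D.ρ b * D.ρ c)) + L (D.rep 1)) =
      (L b + L c) - L (D.rep (D.ρ b * D.ρ c)) := by abel
  rw [h5, map_sub, map_add] at h4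
  show κ (L u) (L (D.rep (D.ρ b * D.ρ c))) = κ (L u) (L b) + κ (L u) (L c)
  linarith

end Pool.Agent.Y684.W3.Kap
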